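import Pool.Agent.Helper71.SEYApi2
import Pool.Agent.Helper49.SEY.ScDefs

/-!
Block SC of the Seymour project: `K4_tc`, `K33_tc`, `ofRows_iso`, `HasMinor_of_HasT`.
-/

namespace SEY

open Finset Submodule BM

variable {E : Type} [Fintype E] [DecidableEq E]

section rows

variable {r s k : ℕ} {rows : Fin r → Fin k → ZMod 2} {duals : Fin s → Fin k → ZMod 2}

lemma mem_ofRows {f : Fin k → ZMod 2} :
    f ∈ (ofRows rows).R ↔ ∃ c : Fin r → ZMod 2, ∀ e, f e = ∑ i, c i * rows i e := by
  show f ∈ Submodule.span (ZMod 2) (Set.range rows) ↔ _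
  rw [Submodule.mem_span_range_iff_exists_fun]
  constructor
  · rintro ⟨c, hc⟩
    refine ⟨c, fun e => ?_⟩
    rw [← hc, Finset.sum_apply]
    exact Finset.sum_congr rfl (fun i _ => by rw [Pi.smul_apply, smul_eq_mul])
  · rintro ⟨c, hc⟩
    refine ⟨c, ?_⟩
    ext e
    rw [hc e, Finset.sum_apply]
    exact Finset.sum_congr rfl (fun i _ => by rw [Pi.smul_apply, smul_eq_mul])

lemma rows_mem_ofRows (i : Fin r) : rows i ∈ (ofRows rows).R :=
  Submodule.subset_span ⟨i, rfl⟩

lemma mem_ofRows_Z_iff {z : Fin k → ZMod 2} :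
    z ∈ (ofRows rows).Z ↔ ∀ i, ∑ j, rows i j * z j = 0 := by
  constructor
  · intro hz i
    exact hz.2 _ (rows_mem_ofRows i)
  · intro h
    refine ⟨fun e he => absurd (Finset.mem_univ e) he, fun f hf => ?_⟩
    obtain ⟨c, hc⟩ := mem_ofRows.1 hf
    unfold dot
    calc ∑ e, f e * z e = ∑ e, ∑ i, c i * (rows i e * z e) := by
          refine Finset.sum_congr rfl (fun e _ => ?_)
          rw [hc e, Finset.sum_mul]
          exact Finset.sum_congr rfl (fun i _ => by ring)
      _ = ∑ i, c i * ∑ e, rows i e * z e := by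
          rw [Finset.sum_comm]
          exact Finset.sum_congr rfl (fun i _ => by rw [Finset.mul_sum])
      _ = 0 := by simp [h]

lemma mem_ofRows_Z (hc : Compl rows duals) {z : Fin k → ZMod 2} :
    z ∈ (ofRows rows).Z ↔ ∃ c : Fin s → ZMod 2, ∀ e, z e = ∑ j, c j * duals j e := by
  rw [mem_ofRows_Z_iff, hc.symm.span z]
  refine forall_congr' (fun i => ?_)
  rw [show (∑ j, rows i j * z j) = ∑ e, z e * rows i e from
    Finset.sum_congr rfl (fun e _ => mul_comm _ _)]

theorem ofRows_iso' {r k : ℕ} (rows : Fin r → Fin k → ZMod 2) : IsIso rows (ofRows rows) :=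
  ⟨id, Function.injective_id, fun e => ⟨fun _ => ⟨e, rfl⟩, fun _ => Finset.mem_univ e⟩,
    fun i => ⟨rows i, rows_mem_ofRows i, fun _ => rfl⟩, fun _ hf => mem_ofRows.1 hf⟩

end rows

/-- A criterion for 3-connectedness. -/
theorem tc_of_cycles (M : BM E) (h4 : 4 ≤ M.S.card)
    (h1 : ∀ z ∈ M.Z, ∀ w ∈ M.Z, z ≠ 0 → w ≠ 0 → ∃ e, z e = 1 ∧ w e = 1)
    (h2 : ∀ e ∈ M.S, ∀ f ∈ M.S, e ≠ f → ∃ z ∈ M.Z, z e = 1 ∧ z f = 0)
    (h3 : ∀ z ∈ M.Z, z ≠ 0 → 2 ≤ (spt z).card) : M.TC := by
  -- omitting one element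
  have key0 : ∀ A : Finset E, ∀ e ∈ M.S, e ∉ A → M.dZ A + 1 ≤ M.nul := by
    intro A e he heA
    have hlt : M.ZIn A < M.Z := by
      refine lt_of_le_of_ne (fun z hz => hz.1) (fun h => ?_)
      obtain ⟨f, hf, hfe⟩ : ∃ f ∈ M.S, f ≠ e := by
        by_contra hcon
        push_neg at hcon
        have := Finset.card_le_card (show M.S ⊆ {e} from fun x hx => by simp [hcon x hx])
        simp at this
        omega
      obtain ⟨z, hz, hz1, -⟩ := h2 e he f hf hfe.symm
      rw [← h] at hz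
      rw [hz.2 e heA] at hz1
      exact zero_ne_one hz1
    have := Submodule.finrank_lt_finrank_of_lt hlt
    unfold dZ nul
    omega
  have key1 : ∀ A : Finset E, ∀ e ∈ M.S, ∀ f ∈ M.S, e ≠ f → e ∉ A → f ∉ A →
      M.dZ A + 2 ≤ M.nul := by
    intro A e he f hf hef heA hfA
    have hlt1 : M.ZIn (M.S \ {e}) < M.Z := by
      refine lt_of_le_of_ne (fun z hz => hz.1) (fun h => ?_)
      obtain ⟨z, hz, hz1, -⟩ := h2 e he f hf hef
      rw [← h] at hz
      rw [hz.2 e (by simp)] at hz1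
      exact zero_ne_one hz1
    have hlt2 : M.ZIn A < M.ZIn (M.S \ {e}) := by
      refine lt_of_le_of_ne (fun z hz => ⟨hz.1, fun x hx => ?_⟩) (fun h => ?_)
      · by_cases hxe : x = e
        · subst hxe; exact hz.2 x heA
        · exact M.Z_supp hz.1 (fun h' => hx (by simp [h', hxe]))
      · obtain ⟨z, hz, hz1, hz2⟩ := h2 f hf e he hef.symm
        have h5 : z ∈ M.ZIn (M.S \ {e}) := by
          refine ⟨hz, fun x hx => ?_⟩
          by_cases hxe : x = e
          · subst hxe; exact hz2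
          · exact M.Z_supp hz (fun h' => hx (by simp [h', hxe]))
        rw [← h] at h5
        rw [h5.2 f hfA] at hz1
        exact zero_ne_one hz1
    have g1 := Submodule.finrank_lt_finrank_of_lt hlt1
    have g2 := Submodule.finrank_lt_finrank_of_lt hlt2
    unfold dZ nul
    omega
  have two : ∀ A : Finset E, A ⊆ M.S → 2 ≤ A.card → 2 ≤ (M.S \ A).card → 2 ≤ M.lam A := by
    intro A hA hc1 hc2
    have hl := M.lam_add_dZ A
    have hor : M.dZ A = 0 ∨ M.dZ (M.S \ A) = 0 := by
      by_contra hcon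
      push_neg at hcon
      obtain ⟨z, hz, hz0, hzA⟩ := M.dZ_pos_iff.1 (Nat.pos_of_ne_zero hcon.1)
      obtain ⟨w, hw, hw0, hwA⟩ := M.dZ_pos_iff.1 (Nat.pos_of_ne_zero hcon.2)
      obtain ⟨e, h5, h6⟩ := h1 z hz w hw hz0 hw0
      by_cases heA : e ∈ A
      · rw [hwA e (by simp [heA])] at h6
        exact zero_ne_one h6
      · rw [hzA e heA] at h5
        exact zero_ne_one h5
    rcases hor with h0 | h0
    · obtain ⟨e, he, f, hf, hef⟩ := Finset.one_lt_card.1 (show 1 < A.card by omega)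
      have := key1 (M.S \ A) e (hA he) f (hA hf) hef (by simp [he]) (by simp [hf])
      omega
    · obtain ⟨e, he, f, hf, hef⟩ := Finset.one_lt_card.1 (show 1 < (M.S \ A).card by omega)
      have := key1 A e (Finset.mem_sdiff.1 he).1 f (Finset.mem_sdiff.1 hf).1 hef
        (Finset.mem_sdiff.1 he).2 (Finset.mem_sdiff.1 hf).2
      omega
  have small : ∀ A : Finset E, A.card ≤ 1 → M.dZ A = 0 := by
    intro A hA
    rw [dZ_eq_zero_iff]
    intro z hz hzA
    by_contra h0
    have g1 := h3 z hz h0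
    have g2 := Finset.card_le_card (spt_subset.2 hzA)
    omega
  refine ⟨h4, fun A hA => ⟨fun h0 => ?_, fun hle => ?_⟩⟩
  · by_contra hcon
    push_neg at hcon
    obtain ⟨hne, hneS⟩ := hcon
    have hA1 : 1 ≤ A.card := Finset.card_pos.2 hne
    have hne2 : (M.S \ A).Nonempty := by
      rw [Finset.sdiff_nonempty]
      exact fun h' => hneS (Finset.Subset.antisymm hA h')
    have hA2 : 1 ≤ (M.S \ A).card := Finset.card_pos.2 hne2
    have hl := M.lam_add_dZ A
    by_cases hc1 : A.card = 1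
    · have g1 := small A (by omega)
      obtain ⟨e, he⟩ := hne
      have g2 := key0 (M.S \ A) e (hA he) (by simp [he])
      omega
    · by_cases hc2 : (M.S \ A).card = 1
      · have g1 := small (M.S \ A) (by omega)
        obtain ⟨e, he⟩ := hne2
        have g2 := key0 A e (Finset.mem_sdiff.1 he).1 (Finset.mem_sdiff.1 he).2
        omega
      · have := two A hA (by omega) (by omega)
        omega
  · by_contra hcon
    push_neg at hcon
    have := two A hA (by omega) (by omega)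
    omega

/-- The criterion for a concrete matroid: everything can be checked by `decide`. -/
theorem tc_of_rows {r s k : ℕ} {rows : Fin r → Fin k → ZMod 2} {duals : Fin s → Fin k → ZMod 2}
    (hc : Compl rows duals) (h4 : 4 ≤ k)
    (h1 : ∀ c c' : Fin s → ZMod 2, (∃ e, ∑ j, c j * duals j e ≠ 0) →
      (∃ e, ∑ j, c' j * duals j e ≠ 0) →
      ∃ e, ∑ j, c j * duals j e = 1 ∧ ∑ j, c' j * duals j e = 1)
    (h2 : ∀ e f : Fin k, e ≠ f → ∃ c : Fin s → ZMod 2,
      ∑ j, c j * duals j e = 1 ∧ ∑ j, c j * duals j f = 0)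
    (h3 : ∀ c : Fin s → ZMod 2, ∀ e, ∑ j, c j * duals j e = 1 →
      ∃ f, f ≠ e ∧ ∑ j, c j * duals j f = 1) : (ofRows rows).TC := by
  refine tc_of_cycles _ ?_ ?_ ?_ ?_
  · show 4 ≤ (Finset.univ : Finset (Fin k)).card
    simpa using h4
  · intro z hz w hw hz0 hw0
    obtain ⟨c, hc1⟩ := (mem_ofRows_Z hc).1 hz
    obtain ⟨c', hc2⟩ := (mem_ofRows_Z hc).1 hw
    have g1 : ∃ e, ∑ j, c j * duals j e ≠ 0 := by
      by_contra hcon
      push_neg at hcon
      exact hz0 (funext fun e => by rw [hc1 e, hcon e]; rfl)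
    have g2 : ∃ e, ∑ j, c' j * duals j e ≠ 0 := by
      by_contra hcon
      push_neg at hcon
      exact hw0 (funext fun e => by rw [hc2 e, hcon e]; rfl)
    obtain ⟨e, k1, k2⟩ := h1 c c' g1 g2
    exact ⟨e, by rw [hc1 e, k1], by rw [hc2 e, k2]⟩
  · intro e _ f _ hef
    obtain ⟨c, k1, k2⟩ := h2 e f hef
    exact ⟨fun x => ∑ j, c j * duals j x, (mem_ofRows_Z hc).2 ⟨c, fun _ => rfl⟩, k1, k2⟩
  · intro z hz hz0
    obtain ⟨c, hc1⟩ := (mem_ofRows_Z hc).1 hz
    obtain ⟨e, he⟩ : ∃ e, z e = 1 := by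
      by_contra hcon
      push_neg at hcon
      exact hz0 (funext fun e => z_ne_one.1 (hcon e))
    obtain ⟨f, hf, hf1⟩ := h3 c e (by rw [← hc1 e, he])
    rw [← hc1 f] at hf1
    have : ({e, f} : Finset (Fin k)) ⊆ spt z := by
      intro x hx
      rw [Finset.mem_insert, Finset.mem_singleton] at hx
      rcases hx with rfl | rfl
      · exact mem_spt'.2 he
      · exact mem_spt'.2 hf1
    have g := Finset.card_le_card this
    rwa [Finset.card_pair hf.symm] at g

theorem K4_tc' : (ofRows K4).TC :=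
  tc_of_rows compl_K4 (by norm_num) (by decide +kernel) (by decide +kernel) (by decide +kernel)

theorem K33_tc' : (ofRows K33).TC :=
  tc_of_rows compl_K33 (by norm_num) (by decide +kernel) (by decide +kernel) (by decide +kernel)

theorem HasMinor_of_HasT' {r k : ℕ} {rows : Fin r → Fin k → ZMod 2} {M : BM E}
    (h : HasT rows M) : HasMinor rows M := by
  obtain ⟨A, π, hA, hsurj, hz⟩ := h
  choose φ hφA hφπ using hsurj
  have hφ : Function.Injective φ := by
    intro i j hij
    rw [← hφπ i, ← hφπ j, hij]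
  set I : Finset E := Finset.univ.image φ with hI
  have hmI : ∀ i, φ i ∈ I := fun i => Finset.mem_image.2 ⟨i, Finset.mem_univ _, rfl⟩
  refine ⟨φ, A \ I, hφ, fun i => hA (hφA i), Finset.sdiff_subset.trans hA, fun i h' =>
    (Finset.mem_sdiff.1 h').2 (hmI i), ?_, ?_⟩
  · intro i
    let f' : E → ZMod 2 := fun e => ∑ j, if φ j = e then rows i j else 0
    have hf'φ : ∀ j, f' (φ j) = rows i j := by
      intro j
      show (∑ j', if φ j' = φ j then rows i j' else 0) = _
      rw [Finset.sum_eq_single j]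
      · simp
      · intro j' _ hne
        rw [if_neg (fun h' => hne (hφ h'))]
      · intro h'; exact absurd (Finset.mem_univ _) h'
    have hf'0 : ∀ e, (∀ j, φ j ≠ e) → f' e = 0 := by
      intro e he
      exact Finset.sum_eq_zero (fun j _ => if_neg (he j))
    have hmem : f' ∈ (M.res A).R := by
      rw [mem_R_iff]
      refine ⟨fun e he => hf'0 e (fun j hj => he ?_), fun z hzz => ?_⟩
      · rw [← hj]
        exact Finset.mem_inter.2 ⟨hA (hφA j), hφA j⟩
      · rw [mem_Z_res] at hzz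
        obtain ⟨w, hw1, hw2⟩ := (hz z hzz.2).1 hzz.1
        rw [dot_eq_sum_map hφ (fun e he => by rw [hf'0 e he, zero_mul])]
        rw [← hw1 i]
        exact Finset.sum_congr rfl (fun j _ => by rw [hf'φ, hw2 _ (hφA j), hφπ])
    rw [mem_res'] at hmem
    obtain ⟨-, g, hg, hg2⟩ := hmem
    refine ⟨g, hg, fun c hc => ?_, fun j => ?_⟩
    · have hcA := (Finset.mem_sdiff.1 hc).1
      rw [hg2 c (Finset.mem_inter.2 ⟨hA hcA, hcA⟩)]
      exact hf'0 c (fun j hj => (Finset.mem_sdiff.1 hc).2 (hj ▸ hmI j))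
    · rw [hg2 _ (Finset.mem_inter.2 ⟨hA (hφA j), hφA j⟩), hf'φ]
  · intro f hf hfC
    rw [← mem_ofRows (rows := rows) (f := fun j => f (φ j)), mem_R_iff]
    refine ⟨fun e he => absurd (Finset.mem_univ e) he, fun w hw => ?_⟩
    rw [mem_ofRows_Z_iff] at hw
    let z : E → ZMod 2 := fun e => if e ∈ A then w (π e) else 0
    have hz0 : ∀ e, e ∉ A → z e = 0 := fun e he => if_neg he
    have hzA : ∀ e ∈ A, z e = w (π e) := fun e he => if_pos he
    have hzZ : z ∈ M.Z := (hz z hz0).2 ⟨w, hw, hzA⟩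
    have h3 := M.dot_eq_zero hf hzZ
    rw [dot_eq_sum_map hφ (fun e he => by
      by_cases heA : e ∈ A
      · rw [hfC e (Finset.mem_sdiff.2 ⟨heA, fun h' => by
          obtain ⟨j, _, hj⟩ := Finset.mem_image.1 h'
          exact he j hj⟩), zero_mul]
      · rw [hz0 e heA, mul_zero])] at h3
    unfold dot
    rw [← h3]
    exact Finset.sum_congr rfl (fun j _ => by rw [hzA _ (hφA j), hφπ])

end SEY
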